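import Mathlib
import Pool.Agent.N870.EC.Stm

/-!
# EC/DEN4: number of residues for `Z/2 x Z/4`

Project EC (helper870), this file by helper849. (`cnt`, and the second and third part, may be used
for EC/DEN2.)
-/

set_option autoImplicit false

namespace Pool.Agent.N849.EC

open Finset

theorem cnt {p m : ℕ} (hp : p.Prime) (hm : ¬ p ∣ m) (P : ℕ × ℕ → Prop) [DecidablePred P]
    (Q : ZMod p × ZMod p → Prop) [DecidablePred Q] [Fintype (ZMod p × ZMod p)]
    (h : ∀ t : ℕ × ℕ, P t ↔ Q (1 + (m : ZMod p) * (t.1 : ZMod p), (t.2 : ZMod p))) :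
    ((range p ×ˢ range p).filter P).card = (univ.filter Q).card := by
  have : Fact p.Prime := ⟨hp⟩
  have hm0 : (m : ZMod p) ≠ 0 := by
    rw [Ne, ZMod.natCast_eq_zero_iff]
    exact hm
  refine Finset.card_bij (fun t _ => (1 + (m : ZMod p) * (t.1 : ZMod p), (t.2 : ZMod p))) ?_ ?_ ?_
  · intro t ht
    rw [mem_filter] at ht ⊢
    exact ⟨mem_univ _, (h t).1 ht.2⟩
  · rintro ⟨u, v⟩ h1 ⟨u', v'⟩ h2 h3
    rw [mem_filter, mem_product, mem_range, mem_range] at h1 h2
    simp only [Prod.mk.injEq] at h3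
    have h4 : (u : ZMod p) = (u' : ZMod p) := mul_left_cancel₀ hm0 (add_left_cancel h3.1)
    have h5 : u = u' := by
      have := (ZMod.natCast_eq_natCast_iff' u u' p).1 h4
      rwa [Nat.mod_eq_of_lt h1.1.1, Nat.mod_eq_of_lt h2.1.1] at this
    have h6 : v = v' := by
      have := (ZMod.natCast_eq_natCast_iff' v v' p).1 h3.2
      rwa [Nat.mod_eq_of_lt h1.1.2, Nat.mod_eq_of_lt h2.1.2] at this
    rw [h5, h6]
  · rintro ⟨a, b⟩ h1
    rw [mem_filter] at h1
    have e1 : (1 : ZMod p) + (m : ZMod p) * ((((a - 1) / (m : ZMod p)).val : ℕ) : ZMod p) = a := by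
      rw [ZMod.natCast_zmod_val]
      field_simp
      ring
    have e2 : ((b.val : ℕ) : ZMod p) = b := ZMod.natCast_zmod_val b
    refine ⟨(((a - 1) / (m : ZMod p)).val, b.val), ?_, ?_⟩
    · rw [mem_filter, mem_product, mem_range, mem_range, h]
      refine ⟨⟨ZMod.val_lt _, ZMod.val_lt _⟩, ?_⟩
      simp only [e1, e2]
      exact h1.2
    · simp only [e1, e2]

theorem jac {p : ℕ} (hp : p.Prime) (hp5 : 5 ≤ p) (a : ℤ) :
    jacobiSym (-a ^ 2) p = 1 ↔ p % 4 = 1 ∧ ¬ (p : ℤ) ∣ a := by
  have : Fact p.Prime := ⟨hp⟩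
  have hodd : Odd p := hp.odd_of_ne_two (by omega)
  rw [jacobiSym.neg _ hodd]
  have h4 : p % 4 = 1 ∨ p % 4 = 3 := by
    have := Nat.odd_iff.1 hodd
    omega
  by_cases ha : (p : ℤ) ∣ a
  · have h1 : jacobiSym (a ^ 2) p = 0 := by
      rw [jacobiSym.eq_zero_iff]
      refine ⟨hp.ne_zero, fun hg => ?_⟩
      have h2 : (p : ℤ) ∣ (Int.gcd (a ^ 2) p : ℤ) :=
        Int.dvd_coe_gcd (dvd_pow ha two_ne_zero) dvd_rfl
      rw [hg] at h2
      have h3 : p ∣ 1 := by exact_mod_cast h2
      exact hp.one_lt.ne' (Nat.dvd_one.1 h3)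
    rw [h1, mul_zero]
    constructor
    · intro h; exact absurd h (by norm_num)
    · rintro ⟨-, h⟩; exact absurd ha h
  · have h1 : jacobiSym (a ^ 2) p = 1 := by
      apply jacobiSym.sq_one'
      rw [← Int.isCoprime_iff_gcd_eq_one]
      exact ((Nat.prime_iff_prime_int.1 hp).coprime_iff_not_dvd.2 ha).symm
    rw [h1, mul_one]
    rcases h4 with h | h
    · rw [ZMod.χ₄_nat_one_mod_four h]
      exact ⟨fun _ => ⟨h, ha⟩, fun _ => rfl⟩
    · rw [ZMod.χ₄_nat_three_mod_four h]
      constructor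
      · intro h'; exact absurd h' (by norm_num)
      · rintro ⟨h', -⟩; omega

theorem t_DEN4 : Pool.Agent.N870.EC.S_DEN4 := by
  intro p m hp hp5 hm
  have : Fact p.Prime := ⟨hp⟩
  have h2 : (2 : ZMod p) ≠ 0 := by
    have h3 : ((2 : ℕ) : ZMod p) ≠ 0 := by
      rw [Ne, ZMod.natCast_eq_zero_iff]
      intro h
      have := Nat.le_of_dvd (by norm_num) h
      omega
    exact_mod_cast h3
  have hcast : ∀ z : ℤ, (p : ℤ) ∣ z ↔ (z : ZMod p) = 0 := fun z =>
    (ZMod.intCast_zmod_eq_zero_iff_dvd z p).symm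
  refine ⟨?_, ?_, ?_⟩
  · rw [cnt hp hm _ (fun x : ZMod p × ZMod p => p % 4 = 1 ∧ x.1 ≠ 0 ∧ x.2 ^ 2 = x.1 ^ 2) ?_]
    · by_cases h4 : p % 4 = 1
      · rw [if_pos h4, Finset.card_filter, Fintype.sum_prod_type]
        have h5 : ∀ a : ZMod p, (∑ b : ZMod p,
            if (p % 4 = 1 ∧ (a, b).1 ≠ 0 ∧ (a, b).2 ^ 2 = (a, b).1 ^ 2) then 1 else 0) =
            if a ≠ 0 then 2 else 0 := by
          intro a
          by_cases ha : a = 0
          · rw [if_neg (not_not.2 ha)]
            refine Finset.sum_eq_zero fun b _ => ?_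
            rw [if_neg]
            rintro ⟨-, h6, -⟩
            exact h6 ha
          · rw [if_pos ha, ← Finset.card_filter]
            have h6 : (univ.filter fun b : ZMod p =>
                (p % 4 = 1 ∧ (a, b).1 ≠ 0 ∧ (a, b).2 ^ 2 = (a, b).1 ^ 2)) = {a, -a} := by
              ext b
              rw [mem_filter, mem_insert, mem_singleton]
              simp only [mem_univ, true_and, h4, ne_eq, ha, not_false_eq_true]
              exact sq_eq_sq_iff_eq_or_eq_neg
            rw [h6, Finset.card_pair]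
            intro h7
            apply ha
            have h8 : 2 * a = 0 := by linear_combination h7
            exact (mul_eq_zero.1 h8).resolve_left h2
        rw [Finset.sum_congr rfl fun a _ => h5 a, ← Finset.sum_filter, Finset.sum_const,
          Finset.filter_ne', Finset.card_erase_of_mem (mem_univ _), Finset.card_univ, ZMod.card,
          smul_eq_mul, mul_comm]
      · rw [if_neg h4, Finset.card_eq_zero, Finset.filter_eq_empty_iff]
        rintro x - ⟨h5, -⟩
        exact h4 h5
    · rintro ⟨u, v⟩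
      rw [jac hp hp5, hcast, hcast]
      push_cast
      constructor
      · rintro ⟨h5, h6, h7⟩
        exact ⟨h6, h7, by linear_combination h5⟩
      · rintro ⟨h5, h6, h7⟩
        exact ⟨by linear_combination h7, h5, h6⟩
  · rw [cnt hp hm _ (fun x : ZMod p × ZMod p => x.1 = 0 ∨ x.2 = 0) ?_]
    · rw [Finset.card_filter, Fintype.sum_prod_type]
      have h5 : ∀ a : ZMod p, (∑ b : ZMod p, if ((a, b).1 = 0 ∨ (a, b).2 = 0) then 1 else 0) =
          1 + if a = 0 then p - 1 else 0 := by
        intro a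
        by_cases ha : a = 0
        · rw [if_pos ha]
          simp only [ha, true_or, if_true]
          rw [Finset.sum_const, Finset.card_univ, ZMod.card, smul_eq_mul]
          omega
        · rw [if_neg ha]
          simp only [ha, false_or]
          rw [Finset.sum_ite_eq', if_pos (mem_univ _)]
      rw [Finset.sum_congr rfl fun a _ => h5 a, Finset.sum_add_distrib, Finset.sum_const,
        Finset.card_univ, ZMod.card, Finset.sum_ite_eq', if_pos (mem_univ _), smul_eq_mul]
      omega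
    · rintro ⟨u, v⟩
      rw [hcast, hcast]
      push_cast
      exact Iff.rfl
  · rw [cnt hp hm _ (fun x : ZMod p × ZMod p => x.1 = 0 ∧ x.2 = 0) ?_]
    · rw [Finset.card_eq_one]
      refine ⟨(0, 0), ?_⟩
      ext ⟨a, b⟩
      rw [mem_filter, mem_singleton]
      simp only [mem_univ, true_and, Prod.mk.injEq]
    · rintro ⟨u, v⟩
      rw [hcast, hcast]
      push_cast
      exact Iff.rfl

end Pool.Agent.N849.EC
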